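import Pool.Agent.Work.MP_dcf6a6_tv.Interface

/-!
# MP_dcf6a6_ag, block P1 : closed points of the projective line
-/

open CategoryTheory AlgebraicGeometry

namespace Pool.TVar.helper22

open Pool.TVar

lemma P1_proj_zero (F : MvPolynomial (Fin 2) ℂ) :
    GradedRing.proj lineGr 0 F = MvPolynomial.C (MvPolynomial.coeff 0 F) := by
  rw [GradedRing.proj_apply]
  exact (MvPolynomial.decomposition.decompose'_apply F 0).trans
    (MvPolynomial.homogeneousComponent_zero F)

theorem stmt_P1 : Stmt_P1 := by
  constructor
  · intro c hc
    have hprime : (RingHom.ker (MvPolynomial.eval c)).IsPrime := RingHom.ker_isPrime _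
    refine ⟨⟨(RingHom.ker (MvPolynomial.eval c)).homogeneousCore lineGr, hprime.homogeneousCore, ?_⟩,
      ?_⟩
    · intro hle
      have hX : ∀ i : Fin 2, c i = 0 := by
        intro i
        have h1 : (MvPolynomial.X i : MvPolynomial (Fin 2) ℂ) ∈ HomogeneousIdeal.irrelevant lineGr :=
          HomogeneousIdeal.mem_irrelevant_of_mem lineGr (i := 1) (by norm_num)
            (MvPolynomial.isHomogeneous_X ℂ i)
        have h2 := Ideal.toIdeal_homogeneousCore_le lineGr _ (hle h1)
        have h3 : MvPolynomial.eval c (MvPolynomial.X i) = 0 := h2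
        simpa using h3
      exact hc (funext hX)
    · intro n F hF
      constructor
      · intro h
        exact Ideal.toIdeal_homogeneousCore_le lineGr _ h
      · intro h
        exact Ideal.mem_homogeneousCore_of_homogeneous_of_mem ⟨n, hF⟩ h
  · intro q
    by_contra hcon
    push Not at hcon
    apply q.not_irrelevant_le
    intro F hF
    have h0 : MvPolynomial.coeff 0 F = 0 := by
      have h1 : GradedRing.proj lineGr 0 F = 0 := (HomogeneousIdeal.mem_irrelevant_iff lineGr F).mp hF
      rw [P1_proj_zero] at h1
      exact MvPolynomial.C_injective (Fin 2) ℂ (by rw [h1, map_zero])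
    have h1 : F ∈ Ideal.span (MvPolynomial.X '' (Set.univ : Set (Fin 2)) :
        Set (MvPolynomial (Fin 2) ℂ)) := by
      rw [MvPolynomial.mem_ideal_span_X_image]
      intro m hm
      by_contra h
      push Not at h
      have hm0 : m = 0 := by
        ext i
        simpa using h i (Set.mem_univ i)
      rw [hm0, MvPolynomial.mem_support_iff] at hm
      exact hm h0
    have h2 : Ideal.span (MvPolynomial.X '' (Set.univ : Set (Fin 2)) :
        Set (MvPolynomial (Fin 2) ℂ)) ≤ q.asHomogeneousIdeal.toIdeal := by
      rw [Ideal.span_le]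
      rintro _ ⟨i, -, rfl⟩
      fin_cases i
      · exact hcon.1
      · exact hcon.2
    exact h2 h1

end Pool.TVar.helper22
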